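import Pool.Agent.Lib.MP_ae8a84_co.NP.Hard
import Pool.Agent.Lib.MP_ae8a84_co.Upper
import Pool.Agent.Lib.MP_8f56c4_lc.H3.Tools

/-!
Recognition of interval bigraphs is in NP; if the minimal obstructions form a language in NP,
then NP is closed under complements.
-/

namespace Pool.Agent.Lib.MP_ae8a84_co.NP

open Pool.Agent.Shared.PolyTime Pool.Agent.Lib.MP_8f56c4_lc.H3 N487b59b3 Finset

theorem np_raw {β : Type} [N487b59b3 β] [Dec β] {A : List Bool → Bool} (R : List Bool → β → Bool)
    (hR : PT fun p : List Bool × β => R p.1 p.2) {g : List Bool → ℕ} (hg : PB g)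
    (h1 : ∀ x, A x = true → ∃ b, sz b ≤ g x ∧ R x b = true)
    (h2 : ∀ x b, R x b = true → A x = true) : A ∈ N68a2faeb.NP := by
  obtain ⟨q, hq⟩ := hg
  refine ⟨q.comp (3 * Polynomial.X), fun p => R p.1 (Dec.dec p.2), PT.isPolyTime
    (hR.comp' (f := fun p : List Bool × List Bool => (p.1, Dec.dec p.2)) (by fun_prop)),
    fun y => ⟨fun h => ?_, fun ⟨w, _, h⟩ => h2 _ _ h⟩⟩
  obtain ⟨b, b1, b2⟩ := h1 y h
  refine ⟨bitEncode b, ?_, by simpa [Dec.dec_enc] using b2⟩
  have h3 := b1.trans (hq y)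
  rw [show (bitEncode y).length = 3 * y.length from sz_listBool y] at h3
  simpa [Polynomial.eval_comp, sz] using h3

/-- entries of a matrix -/
def ent (M : List (List Bool)) (i j : ℕ) : Bool := (M.getD i []).getD j false

/-- test of a certificate -/
def chk (M : List (List Bool)) (w : List (ℕ × ℕ) × List (ℕ × ℕ)) : Bool :=
  (List.range M.length).all fun x => (List.range (M.headD []).length).all fun y =>
    (ent M x y == (decide ((w.2.getD y (0, 0)).1 ≤ (w.1.getD x (0, 0)).2) &&
      decide ((w.1.getD x (0, 0)).1 ≤ (w.2.getD y (0, 0)).2))) &&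
    (decide ((w.2.getD y (0, 0)).1 ≤ (w.1.getD x (0, 0)).2) ||
      decide ((w.1.getD x (0, 0)).1 ≤ (w.2.getD y (0, 0)).2))

theorem sz_ofFn {k B : ℕ} {p q : Fin k → ℕ} (hp : ∀ x, p x ≤ B) (hq : ∀ x, q x ≤ B) :
    sz (List.ofFn fun x => (p x, q x)) ≤ k * (2 * (3 * B + 1) + 1) := by
  have := sz_list_le (l := List.ofFn fun x => (p x, q x)) (B := 3 * B + 1) fun a ha => by
    obtain ⟨x, rfl⟩ := List.mem_ofFn.1 ha
    have := sz_nat_le (p x)
    have := sz_nat_le (q x)
    have := hp x
    have := hq x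
    rw [sz_pair]
    omega
  rwa [List.length_ofFn] at this

theorem mem_np : ∃ L ∈ N68a2faeb.NP, ∀ M : List (List Bool),
    L (bitEncode M) = true ↔ (ofMatrix M).IntervalOn Set.univ Set.univ := by
  classical
  refine ⟨fun y => decide ((ofMatrix (Dec.dec y)).IntervalOn Set.univ Set.univ), ?_,
    fun M => by rw [decide_eq_true_iff, Dec.dec_enc]⟩
  let s : List Bool → ℕ := fun y => (Dec.dec y : List (List Bool)).length
  let t : List Bool → ℕ := fun y => ((Dec.dec y : List (List Bool)).headD []).length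
  refine np_raw (fun y w => chk (Dec.dec y) w) (by unfold chk ent; fun_prop)
    (g := fun y => 2 * (s y * (2 * (3 * (s y + t y) + 1) + 1)) + 1 +
      t y * (2 * (3 * (s y + t y) + 1) + 1)) (by unfold s t; fun_prop) (fun y h => ?_)
    fun y w h => decide_eq_true ?_
  · obtain ⟨l, r, l', r', h1, h2, h3⟩ := of_decide_eq_true h
    refine ⟨(List.ofFn fun x => (#{z | r' z < l x}, #{z | r z < r x}),
      List.ofFn fun y => (#{z | r z < l' y}, #{z | r' z < r' y})), ?_, ?_⟩
    · have a1 : ∀ p : Fin (s y) → Prop, #{z | p z} ≤ s y + t y := fun p =>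
        (card_filter_le _ _).trans (by simp)
      have a2 : ∀ p : Fin (t y) → Prop, #{z | p z} ≤ s y + t y := fun p =>
        (card_filter_le _ _).trans (by simp)
      rw [sz_pair]
      exact add_le_add (add_le_add (Nat.mul_le_mul_left _ (sz_ofFn (fun _ => a2 _) fun _ => a1 _))
        le_rfl) (sz_ofFn (fun _ => a1 _) fun _ => a2 _)
    · simp only [chk, List.all_eq_true, List.mem_range]
      intro i hi j hj
      have e := h3 ⟨i, hi⟩ trivial ⟨j, hj⟩ trivial
      have a := h1 ⟨i, hi⟩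
      have b := h2 ⟨j, hj⟩
      rw [icc_inter_nonempty a b] at e
      rw [List.getD_eq_getElem (n := i) _ _ (by rw [List.length_ofFn]; exact hi),
        List.getD_eq_getElem (n := j) _ _ (by rw [List.length_ofFn]; exact hj)]
      simp only [List.getElem_ofFn, rank_le_iff, Bool.and_eq_true, beq_iff_eq, Bool.or_eq_true,
        decide_eq_true_eq]
      refine ⟨Bool.eq_iff_iff.2 (e.trans (by simp)), ?_⟩
      by_contra c
      rw [not_or, not_le, not_le] at c
      linarith [c.1, c.2]
  · refine intervalOn_of_ranks _ _ _ (fun x => (w.1.getD x (0, 0)).1) (fun x => (w.1.getD x (0, 0)).2)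
      (fun y => (w.2.getD y (0, 0)).1) (fun y => (w.2.getD y (0, 0)).2) fun i _ j _ => ?_
    simp only [chk, List.all_eq_true, List.mem_range, Bool.and_eq_true, beq_iff_eq, Bool.or_eq_true,
      decide_eq_true_eq] at h
    obtain ⟨a, b⟩ := h i i.2 j j.2
    exact ⟨(Bool.eq_iff_iff.1 a).trans (by simp), by omega⟩

/-- representation of a relation on a pair of index sets -/
def RepOn (M : List (List Bool)) (A B : Set ℕ) : Prop :=
  ∃ l r l' r' : ℕ → ℝ, (∀ d, l d ≤ r d) ∧ (∀ d, l' d ≤ r' d) ∧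
    ∀ d ∈ A, ∀ e ∈ B, (ent M d e = true ↔ l' e ≤ r d ∧ l d ≤ r' e)

theorem RepOn.mono {M : List (List Bool)} {A A' B B' : Set ℕ} (h : RepOn M A B) (a : A' ⊆ A)
    (b : B' ⊆ B) : RepOn M A' B' := by
  obtain ⟨l, r, l', r', h1, h2, h3⟩ := h
  exact ⟨l, r, l', r', h1, h2, fun d hd e he => h3 d (a hd) e (b he)⟩

theorem intervalOn_iff {M : List (List Bool)} {G : Bigraph} {u : Fin G.s → ℕ} {v : Fin G.t → ℕ}
    (h : ∀ x y, G.E x y ↔ ent M (u x) (v y) = true) (S : Set (Fin G.s)) (T : Set (Fin G.t)) :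
    G.IntervalOn S T ↔ RepOn M (u '' S) (v '' T) := by
  constructor
  · rintro ⟨l, r, l', r', h1, h2, h3⟩
    have e1 : ∀ d, ∃ a b : ℝ, a ≤ b ∧ (d ∈ u '' S → ∃ x ∈ S, u x = d ∧ a = l x ∧ b = r x) :=
      fun d => by
        by_cases hd : d ∈ u '' S
        · obtain ⟨x, hx, rfl⟩ := hd
          exact ⟨_, _, h1 x, fun _ => ⟨x, hx, rfl, rfl, rfl⟩⟩
        · exact ⟨0, 0, le_rfl, fun h => absurd h hd⟩
    have e2 : ∀ d, ∃ a b : ℝ, a ≤ b ∧ (d ∈ v '' T → ∃ y ∈ T, v y = d ∧ a = l' y ∧ b = r' y) :=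
      fun d => by
        by_cases hd : d ∈ v '' T
        · obtain ⟨x, hx, rfl⟩ := hd
          exact ⟨_, _, h2 x, fun _ => ⟨x, hx, rfl, rfl, rfl⟩⟩
        · exact ⟨0, 0, le_rfl, fun h => absurd h hd⟩
    choose a b hab e1 using e1
    choose c d hcd e2 using e2
    refine ⟨a, b, c, d, hab, hcd, fun i hi j hj => ?_⟩
    obtain ⟨x, hx, rfl, x1, x2⟩ := e1 i hi
    obtain ⟨y, hy, rfl, y1, y2⟩ := e2 j hj
    rw [x1, x2, y1, y2, ← icc_inter_nonempty (h1 x) (h2 y), ← h3 x hx y hy, h]
  · rintro ⟨l, r, l', r', h1, h2, h3⟩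
    exact ⟨fun x => l (u x), fun x => r (u x), fun y => l' (v y), fun y => r' (v y), fun _ => h1 _,
      fun _ => h2 _, fun x hx y hy => by
        rw [h, h3 _ ⟨x, hx, rfl⟩ _ ⟨y, hy, rfl⟩, icc_inter_nonempty (h1 _) (h2 _)]⟩

/-- a submatrix -/
def sub (M : List (List Bool)) (S T : List ℕ) : List (List Bool) :=
  S.map fun i => T.map fun j => ent M i j

theorem sub_s (M : List (List Bool)) (S T : List ℕ) : (ofMatrix (sub M S T)).s = S.length := by
  simp [ofMatrix, sub]

theorem sub_t (M : List (List Bool)) {S : List ℕ} (hS : S ≠ []) (T : List ℕ) :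
    (ofMatrix (sub M S T)).t = T.length := by
  cases S with
  | nil => exact absurd rfl hS
  | cons d X => simp [ofMatrix, sub]

theorem interval_sub (M : List (List Bool)) {S : List ℕ} (hS : S ≠ []) (T : List ℕ) (A B) :
    (ofMatrix (sub M S T)).IntervalOn A B ↔
      RepOn M ((fun x => S.getD x.1 0) '' A) ((fun y => T.getD y.1 0) '' B) :=
  intervalOn_iff (fun x y => by
    have h1 : x.1 < S.length := sub_s M S T ▸ x.2
    have h2 : y.1 < T.length := sub_t M hS T ▸ y.2
    simp [ofMatrix, sub, h1, h2]) A B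

theorem image_sub {S : List ℕ} {k : ℕ} (h : k = S.length) (A : Set (Fin k)) :
    ∃ S' : List ℕ, S'.Sublist S ∧ (A ≠ Set.univ → S'.length < S.length) ∧
      (fun x : Fin k => S.getD x 0) '' A ⊆ {i | i ∈ S'} := by
  subst h
  by_cases hA : A = Set.univ
  · refine ⟨S, .refl _, fun h => absurd hA h, ?_⟩
    rintro _ ⟨x, -, rfl⟩
    simp
  · obtain ⟨z, hz⟩ := (Set.ne_univ_iff_exists_notMem A).1 hA
    refine ⟨S.eraseIdx z, List.eraseIdx_sublist _ _, fun _ => ?_, ?_⟩
    · have := z.2
      rw [List.length_eraseIdx_of_lt z.2]; omega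
    · rintro _ ⟨x, hx, rfl⟩
      exact List.mem_eraseIdx_iff_getElem.2 ⟨x, x.2, fun e => hz (Fin.ext e ▸ hx), by simp⟩

theorem not_interval_iff (M : List (List Bool)) : ¬ (ofMatrix M).IntervalOn Set.univ Set.univ ↔
    ∃ S T : List ℕ, S.Sublist (List.range M.length) ∧ T.Sublist (List.range (M.headD []).length) ∧
      (ofMatrix (sub M S T)).MinForb := by
  have h0 := intervalOn_iff (M := M) (G := ofMatrix M) (u := Fin.val) (v := Fin.val)
    (fun _ _ => Iff.rfl) Set.univ Set.univ
  have top : ∀ {S : List ℕ} {k : ℕ}, k = S.length →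
      {i | i ∈ S} ⊆ (fun x : Fin k => S.getD x 0) '' Set.univ := by
    rintro S _ rfl i hi
    obtain ⟨x, hx, rfl⟩ := List.getElem_of_mem hi
    exact ⟨⟨x, hx⟩, trivial, by simp [hx]⟩
  constructor
  · intro h
    have ex : ∃ k, ∃ S T : List ℕ, S.Sublist (List.range M.length) ∧
        T.Sublist (List.range (M.headD []).length) ∧ ¬ RepOn M {i | i ∈ S} {i | i ∈ T} ∧
        S.length + T.length = k := ⟨_, _, _, .refl _, .refl _, fun c => h (h0.2 (c.mono
          (by rintro _ ⟨x, -, rfl⟩; exact List.mem_range.2 x.2)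
          (by rintro _ ⟨x, -, rfl⟩; exact List.mem_range.2 x.2))), rfl⟩
    classical
    obtain ⟨S, T, h1, h2, h3, h4⟩ := Nat.find_spec ex
    have hS : S ≠ [] := by
      rintro rfl
      exact h3 ⟨0, 0, 0, 0, fun _ => le_rfl, fun _ => le_rfl, by simp⟩
    refine ⟨S, T, h1, h2, fun c => h3 (((interval_sub M hS T _ _).1 c).mono (top (sub_s M S T))
      (top (sub_t M hS T))), fun A B c => (interval_sub M hS T _ _).2 ?_⟩
    obtain ⟨S', a1, a2, a3⟩ := image_sub (sub_s M S T) A
    obtain ⟨T', b1, b2, b3⟩ := image_sub (sub_t M hS T) B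
    refine RepOn.mono (by_contra fun d => ?_) a3 b3
    have := Nat.find_min' ex ⟨S', T', a1.trans h1, b1.trans h2, d, rfl⟩
    have := a1.length_le
    have := b1.length_le
    rcases not_and_or.1 c with c | c
    · have := a2 c; omega
    · have := b2 c; omega
  · rintro ⟨S, T, h1, h2, h3, -⟩ h
    by_cases hS : S = []
    · subst hS
      exact h3 ⟨0, 0, 0, 0, fun _ => le_rfl, fun _ => le_rfl, fun x => x.elim0⟩
    obtain ⟨S', a1, -, a3⟩ := image_sub (sub_s M S T) Set.univ
    obtain ⟨T', b1, -, b3⟩ := image_sub (sub_t M hS T) Set.univ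
    exact h3 ((interval_sub M hS T _ _).2 ((h0.1 h).mono
      (fun i hi => ⟨⟨i, List.mem_range.1 ((a1.trans h1).subset (a3 hi))⟩, trivial, rfl⟩)
      fun i hi => ⟨⟨i, List.mem_range.1 ((b1.trans h2).subset (b3 hi))⟩, trivial, rfl⟩))

theorem rect_sub (M : List (List Bool)) (S T : List ℕ) : Rect (sub M S T) := by
  intro row h
  obtain ⟨d, hd, rfl⟩ := List.mem_map.1 h
  exact (List.length_map _).trans (sub_t M (List.ne_nil_of_mem hd) T).symm

theorem two_sub {M : List (List Bool)} (h : (ofMatrix M).TwoFerrers) {S T : List ℕ}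
    (h1 : S.Sublist (List.range M.length)) (h2 : T.Sublist (List.range (M.headD []).length)) :
    (ofMatrix (sub M S T)).TwoFerrers := by
  by_cases hS : S = []
  · subst hS
    exact ⟨0, 0, 0, 0, fun x => x.elim0⟩
  obtain ⟨p, q, a, b, h⟩ := h
  have a1 : ∀ x : Fin (ofMatrix (sub M S T)).s, x.1 < S.length := fun x => sub_s M S T ▸ x.2
  have a2 : ∀ y : Fin (ofMatrix (sub M S T)).t, y.1 < T.length := fun y => sub_t M hS T ▸ y.2
  let u : Fin (ofMatrix (sub M S T)).s → Fin (ofMatrix M).s := fun x =>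
    ⟨S[x.1]'(a1 x), List.mem_range.1 (h1.subset (List.getElem_mem _))⟩
  let v : Fin (ofMatrix (sub M S T)).t → Fin (ofMatrix M).t := fun y =>
    ⟨T[y.1]'(a2 y), List.mem_range.1 (h2.subset (List.getElem_mem _))⟩
  refine ⟨p ∘ u, q ∘ u, a ∘ v, b ∘ v, fun x y => Iff.trans ?_ (h (u x) (v y))⟩
  simp [ofMatrix, sub, ent, u, v, a1 x, a2 y]

theorem compl_mem {A : List Bool → Bool} (hA : A ∈ N68a2faeb.NP)
    (h : ∀ M : List (List Bool), Rect M → (ofMatrix M).TwoFerrers →
      (A (bitEncode M) = true ↔ (ofMatrix M).MinForb)) {L : List Bool → Bool}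
    (hL : L ∈ N68a2faeb.NP) : Lᶜ ∈ N68a2faeb.NP := by
  obtain ⟨f, hf, h1⟩ := hard hL
  obtain ⟨p, R, hR, h2⟩ := hA
  have hR := PT.ofIsPolyTime hR
  let s : List Bool → ℕ := fun x => (f x).length
  let t : List Bool → ℕ := fun x => ((f x).headD []).length
  let F : List Bool → List Bool × List Bool → List ℕ × List ℕ := fun x w =>
    ((List.range (s x)).filter fun i => w.1.getD i false,
      (List.range (t x)).filter fun i => w.2.getD i false)
  have key : ∀ x, Lᶜ x = true ↔ ∃ S T : List ℕ, S.Sublist (List.range (s x)) ∧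
      T.Sublist (List.range (t x)) ∧ A (bitEncode (sub (f x) S T)) = true := fun x => by
    rw [Pi.compl_apply, Bool.compl_eq_bnot, Bool.not_eq_true', ← Bool.not_eq_true, (h1 x).2.2,
      not_interval_iff]
    exact exists₂_congr fun S T => and_congr_right fun a => and_congr_right fun b =>
      (h _ (rect_sub _ _ _) (two_sub (h1 x).2.1 a b)).symm
  have mask : ∀ {S : List ℕ} {k : ℕ}, S.Sublist (List.range k) → ∃ w : List Bool, w.length = k ∧
      ((List.range k).filter fun i => w.getD i false) = S := fun {S k} a =>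
    ⟨(List.range k).map fun i => decide (i ∈ S), by simp, by
      rw [List.filter_congr (q := fun i => decide (i ∈ S)) fun i hi => by
        simp [List.mem_range.1 hi]]
      exact List.Perm.eq_of_pairwise' (r := (· < ·)) (List.pairwise_lt_range.filter _)
        (List.pairwise_lt_range.sublist a) ((List.perm_ext_iff_of_nodup
          (List.nodup_range.filter _) (a.nodup List.nodup_range)).2 fun i => by
            simpa using fun c => List.mem_range.1 (a.subset c))⟩
  refine np_raw (fun x (w : (List Bool × List Bool) × List Bool) =>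
    decide (w.2.length ≤ p.eval (bitEncode (sub (f x) (F x w.1).1 (F x w.1).2)).length) &&
      R (bitEncode (sub (f x) (F x w.1).1 (F x w.1).2), w.2)) ?_
    (g := fun x => 2 * (2 * (3 * s x) + 1 + 3 * t x) + 1 + 3 * p.eval (s x * (2 * (3 * t x) + 1)))
    ?_ (fun x hx => ?_) fun x w hw => ?_
  · have a : PT fun q : List Bool × (List Bool × List Bool) × List Bool =>
        bitEncode (sub (f q.1) (F q.1 q.2.1).1 (F q.1 q.2.1).2) := by
      have b : PT fun q : List Bool × (List Bool × List Bool) × List Bool => f q.1 := by fun_prop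
      unfold sub ent F s t
      fun_prop
    exact (PT.decide_le (by fun_prop) (Shared.CookLevin.pt_eval p a.length)).and
      (hR.comp' (a.pair (by fun_prop)))
  · have := Shared.CookLevin.pb_eval p (g := fun x => s x * (2 * (3 * t x) + 1))
      (by unfold s t; fun_prop)
    have a : PB s := by unfold s; fun_prop
    have b : PB t := by unfold t; fun_prop
    fun_prop
  · obtain ⟨S, T, a, b, c⟩ := (key x).1 hx
    obtain ⟨w, w1, w2⟩ := (h2 _).1 c
    obtain ⟨u, u1, u2⟩ := mask a
    obtain ⟨v, v1, v2⟩ := mask b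
    refine ⟨((u, v), w), ?_, by simp only [F, u2, v2, w2, decide_eq_true w1, Bool.and_self]⟩
    have d := sz_list_le (l := sub (f x) S T) (B := 3 * t x) fun r hr => by
      obtain ⟨i, -, rfl⟩ := List.mem_map.1 hr
      have := b.length_le
      rw [sz_listBool, List.length_map]
      rw [List.length_range] at this
      omega
    have e : (sub (f x) S T).length ≤ s x := by simpa [sub] using a.length_le
    have := w1.trans (eval_mono p (d.trans (Nat.mul_le_mul_right _ e)))
    simp only [sz_pair, sz_listBool, u1, v1]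
    omega
  · simp only [Bool.and_eq_true, decide_eq_true_eq] at hw
    exact (key x).2 ⟨_, _, List.filter_sublist, List.filter_sublist, (h2 _).2 ⟨_, hw⟩⟩

end Pool.Agent.Lib.MP_ae8a84_co.NP
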