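import Pool.Agent.Lib.MP_ae8a84_co.Defs

namespace Pool.Agent.Lib.MP_ae8a84_co.NP

/-- The bigraph with biadjacency matrix `M`: the rows form one part, the columns the other part
(as many as the first row has entries), and a row and a column are adjacent when the entry is
`true`. -/
def ofMatrix (M : List (List Bool)) : Bigraph where
  s := M.length
  t := (M.headD []).length
  E x y := (M.getD x []).getD y false = true

/-- All rows have the same length. -/
def Rect (M : List (List Bool)) : Prop := ∀ row ∈ M, row.length = (M.headD []).length

end Pool.Agent.Lib.MP_ae8a84_co.NP
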