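import Pool.Agent.Lib.MP_ae8a84_co.NP.Equi
import Pool.Agent.Lib.MP_ae8a84_co.NP.Defs
import Pool.Agent.Lib.MP_ae8a84_co.Rep

/-!
Recognition of interval bigraphs is NP-hard.
-/

namespace Pool.Agent.Lib.MP_ae8a84_co.NP

open Pool.Agent.Shared.CookLevin Pool.Agent.Shared.PolyTime

/-- the biadjacency matrix -/
def mat (X Y : List Dsc) : List (List Bool) := X.map fun d => Y.map fun e => adj d e

variable {X Y : List Dsc}

theorem mat_t (hX : X ≠ []) : (ofMatrix (mat X Y)).t = Y.length := by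
  cases X with
  | nil => exact absurd rfl hX
  | cons d X => simp [ofMatrix, mat]

theorem mat_s : (ofMatrix (mat X Y)).s = X.length := by simp [ofMatrix, mat]

theorem rect_mat : Rect (mat X Y) := by
  intro row h
  obtain ⟨d, hd, rfl⟩ := List.mem_map.1 h
  exact (List.length_map _).trans (mat_t (List.ne_nil_of_mem hd)).symm

theorem mat_E (hX : X ≠ []) (x : Fin (ofMatrix (mat X Y)).s) (y : Fin (ofMatrix (mat X Y)).t) :
    X.getD x default ∈ X ∧ Y.getD y default ∈ Y ∧
      ((ofMatrix (mat X Y)).E x y ↔ adj (X.getD x default) (Y.getD y default) = true) := by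
  have h1 : x.1 < X.length := mat_s ▸ x.2
  have h2 : y.1 < Y.length := mat_t hX ▸ y.2
  simp [ofMatrix, mat, h1, h2]

theorem interval_mat (hX : X ≠ []) : (ofMatrix (mat X Y)).IntervalOn Set.univ Set.univ ↔
    ∃ l r l' r', IsRep X Y l r l' r' := by
  constructor
  · rintro ⟨l, r, l', r', h1, h2, h3⟩
    have e1 : ∀ d, ∃ a b : ℝ, a ≤ b ∧ (d ∈ X → ∃ x : Fin (ofMatrix (mat X Y)).s,
        X.getD x default = d ∧ a = l x ∧ b = r x) := fun d => by
      by_cases hd : d ∈ X
      · obtain ⟨i, hi, rfl⟩ := List.getElem_of_mem hd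
        exact ⟨_, _, h1 ⟨i, mat_s.symm ▸ hi⟩, fun _ => ⟨_, by simp [hi], rfl, rfl⟩⟩
      · exact ⟨0, 0, le_rfl, fun h => absurd h hd⟩
    have e2 : ∀ d, ∃ a b : ℝ, a ≤ b ∧ (d ∈ Y → ∃ y : Fin (ofMatrix (mat X Y)).t,
        Y.getD y default = d ∧ a = l' y ∧ b = r' y) := fun d => by
      by_cases hd : d ∈ Y
      · obtain ⟨i, hi, rfl⟩ := List.getElem_of_mem hd
        exact ⟨_, _, h2 ⟨i, (mat_t hX).symm ▸ hi⟩, fun _ => ⟨_, by simp [hi], rfl, rfl⟩⟩
      · exact ⟨0, 0, le_rfl, fun h => absurd h hd⟩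
    choose a b hab e1 using e1
    choose c d hcd e2 using e2
    refine ⟨a, b, c, d, hab, hcd, fun u hu v hv => ?_⟩
    obtain ⟨x, rfl, x1, x2⟩ := e1 u hu
    obtain ⟨y, rfl, y1, y2⟩ := e2 v hv
    rw [x1, x2, y1, y2, ← icc_inter_nonempty (h1 x) (h2 y), ← h3 x trivial y trivial,
      (mat_E hX x y).2.2]
  · rintro ⟨l, r, l', r', h1, h2, h3⟩
    refine ⟨fun x => l (X.getD x default), fun x => r (X.getD x default),
      fun y => l' (Y.getD y default), fun y => r' (Y.getD y default), fun _ => h1 _, fun _ => h2 _,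
      fun x _ y _ => ?_⟩
    obtain ⟨a, b, c⟩ := mat_E hX x y
    rw [c, h3 _ a _ b, icc_inter_nonempty (h1 _) (h2 _)]

/-- first coordinate of the two-dimensional model -/
def lft (n : ℕ) (d : Dsc) : ℤ :=
  cond d.1 (tm n d.2.2.2 + 4 * (d.2.2.2 - d.2.1 : ℕ) + 1) (tm n d.2.2.1 - 2 * d.2.1)

/-- second coordinate of the two-dimensional model -/
def rgt (n : ℕ) (d : Dsc) : ℤ :=
  cond d.1 (tm n d.2.1 - 4 * (d.2.2.2 - d.2.1 : ℕ) - 1) (tm n d.2.2.2 + 2 * d.2.1)

theorem cov_two {n : ℕ} {P : List Cl} (hP : Good n P) {C s : Cl} (hC : C ∈ P) (hs : s ∈ segs n P) :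
    cov C s = true ↔ lft n (false, s) ≤ rgt n (true, C) ∧ lft n (true, C) ≤ rgt n (false, s) := by
  have w := hP.wf C hC
  obtain ⟨s1, s2, s3⟩ := seg_spec hP hs
  have s4 := fun e => (s3 C hC).2 e _ (.inl rfl)
  have s5 := fun e => (s3 C hC).2 e _ (.inr (.inr rfl))
  have a1 := @tm_lt n s.2.1 C.1
  have a2 := @tm_lt n C.1 s.2.1
  have a3 := @tm_lt n s.2.2 C.2.2
  have a4 := @tm_lt n C.2.2 s.2.2
  have a5 : s.2.1 = C.1 → tm n s.2.1 = tm n C.1 := congrArg _
  have a6 : s.2.2 = C.2.2 → tm n s.2.2 = tm n C.2.2 := congrArg _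
  simp only [cov, lft, rgt, Bool.and_eq_true, decide_eq_true_eq, cond_true, cond_false]
  omega

theorem adj_two {n : ℕ} {P N : List Cl} (hP : Good n P) (hN : Good n N) {d e : Dsc}
    (hd : d ∈ verts n P N) (he : e ∈ verts n N P) :
    adj d e = true ↔ lft n e ≤ rgt n d ∧ lft n d ≤ rgt n e := by
  simp only [verts, List.mem_append, List.mem_map] at hd he
  rcases hd with ⟨d, hd, rfl⟩ | ⟨d, hd, rfl⟩ <;> rcases he with ⟨e, he, rfl⟩ | ⟨e, he, rfl⟩
  · have b1 := (seg_spec hN hd).2.1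
    have b2 := (seg_spec hP he).2.1
    have a1 := @tm_lt n d.2.1 e.2.2
    have a2 := @tm_lt n e.2.2 d.2.1
    have a3 := @tm_lt n e.2.1 d.2.2
    have a4 := @tm_lt n d.2.2 e.2.1
    have a5 : d.2.1 = e.2.2 → tm n d.2.1 = tm n e.2.2 := congrArg _
    have a6 : e.2.1 = d.2.2 → tm n e.2.1 = tm n d.2.2 := congrArg _
    simp only [adj, lft, rgt, Bool.and_eq_true, decide_eq_true_eq, cond_false]
    omega
  · rw [and_comm, ← cov_two hN he hd]; simp [adj]
  · rw [← cov_two hP hd he]; simp [adj]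
  · have a1 := tm_lt (n := n) ((hP.wf d hd).2.1.trans_lt (hP.wf d hd).2.2.1)
    have a2 := tm_lt (n := n) ((hN.wf e he).2.1.trans_lt (hN.wf e he).2.2.1)
    simp only [adj, lft, rgt, cond_true, Bool.not_true, Bool.false_and, Bool.false_eq_true,
      false_iff]
    omega

theorem two_mat {n : ℕ} {P N : List Cl} (hP : Good n P) (hN : Good n N) (hX : verts n P N ≠ []) :
    (ofMatrix (mat (verts n P N) (verts n N P))).TwoFerrers := by
  refine ⟨fun d => lft n ((verts n P N).getD d default),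
    fun d => rgt n ((verts n P N).getD d default), fun d => lft n ((verts n N P).getD d default),
    fun d => rgt n ((verts n N P).getD d default), fun d e => ?_⟩
  obtain ⟨a, b, c⟩ := mat_E hX d e
  exact c.trans ((adj_two hP hN a b).trans (by simp only [Int.cast_le]))

/-- the matrix attached to a formula -/
def red (φ : E3 ℕ) : List (List Bool) :=
  mat (verts (len φ) (pos φ) (neg φ)) (verts (len φ) (neg φ) (pos φ))

@[fun_prop] theorem adj_pt {α : Type} [N487b59b3 α] {d e : α → Dsc} (hd : PT d) (he : PT e) :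
    PT fun a => adj (d a) (e a) := by unfold adj cov; fun_prop

theorem mat_pt {α : Type} [N487b59b3 α] {X Y : α → List Dsc} (hX : PT X) (hY : PT Y) :
    PT fun a => mat (X a) (Y a) := by unfold mat; fun_prop

theorem red_pt {α : Type} [N487b59b3 α] {φ : α → E3 ℕ} (h : PT φ) : PT fun a => red (φ a) := by
  have h1 : PT fun a => len (φ a) := by unfold len base; fun_prop
  have h2 : PB fun a => len (φ a) := by unfold len base; fun_prop
  have h3 : PT fun a => pos (φ a) := by unfold pos rowP arc gp om base; fun_prop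
  have h4 : PT fun a => neg (φ a) := by unfold neg rowN arc gp om base col; fun_prop
  have h6 : ∀ {P N : α → List Cl}, PT P → PT N → PT fun a => verts (len (φ a)) (P a) (N a) :=
    fun hP hN => by unfold verts segs; fun_prop
  exact mat_pt (h6 h3 h4) (h6 h4 h3)

theorem hard {L : List Bool → Bool} (hL : L ∈ N68a2faeb.NP) :
    ∃ f : List Bool → List (List Bool), PT f ∧ ∀ x, Rect (f x) ∧ (ofMatrix (f x)).TwoFerrers ∧
      (L x = true ↔ (ofMatrix (f x)).IntervalOn Set.univ Set.univ) := by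
  obtain ⟨φ, hφ, h⟩ := cook_levin_e3 hL
  refine ⟨fun x => red (φ x), red_pt hφ, fun x => ?_⟩
  have hn : 3 ≤ len (φ x) := Nat.le_add_left _ _
  have hX : verts (len (φ x)) (pos (φ x)) (neg (φ x)) ≠ [] :=
    List.ne_nil_of_mem (seg_mem (bb_mem (show 0 < _ by omega)))
  refine ⟨rect_mat, two_mat (good_pos _) (good_neg _) hX, ?_⟩
  refine (h x).2.2.trans (Iff.trans ?_ (interval_mat hX).symm)
  exact ⟨fun e => rep_of_sat (good_pos _) (good_neg _) (sat2_of_sat3 (h x).2.1 e),
    fun ⟨_, _, _, _, e⟩ => sat3_of_sat2 (sat_of_rep hn (good_pos _) (good_neg _) e)⟩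

end Pool.Agent.Lib.MP_ae8a84_co.NP
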