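import Pool.Agent.Lib.MP_ae8a84_co.NP.Grid

/-!
The two-page formula is satisfiable exactly when the given formula is.
-/

namespace Pool.Agent.Lib.MP_ae8a84_co.NP

open Pool.Agent.Shared.CookLevin

theorem leg_iff (τ : ℕ → Bool) (b : Bool) (C : Cl) :
    (∃ t, Leg C t ∧ τ t = b) ↔ τ C.1 = b ∨ τ C.2.1 = b ∨ τ C.2.2 = b := by
  simp [Leg, or_and_right, exists_or]

theorem row_sound {τ : ℕ → Bool} {W B : ℕ} {c : List ℕ}
    (hP : ∀ C ∈ rowP W B, τ C.1 = true ∨ τ C.2.1 = true ∨ τ C.2.2 = true)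
    (hN : ∀ C ∈ rowN W B c, τ C.1 = false ∨ τ C.2.1 = false ∨ τ C.2.2 = false) :
    (∀ j < W, τ (om W (B + (9 * W + 5)) j) = false → τ (om W B j) = false) ∧
      ∃ j < W, j ∈ c ∧ τ (om W B j) = false := by
  simp only [rowP, rowN, List.forall_mem_append, List.forall_mem_cons, List.forall_mem_flatMap,
    List.mem_range, arc, List.not_mem_nil, false_imp_iff, implies_true, and_true,
    or_self_left] at hP hN
  obtain ⟨⟨p1, p2, p3⟩, hP⟩ := hP
  obtain ⟨⟨n1, n2, n3⟩, hN⟩ := hN
  refine ⟨fun j hj e => ?_, ?_⟩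
  · have := hP j hj
    have := hN j hj
    grind
  · by_contra hc
    have key : ∀ j ≤ W, τ (gp W B j 0) = true := fun j => by
      induction j with
      | zero => grind
      | succ j ih =>
        intro hj
        have := hP j hj
        have := hN j hj
        have := ih (by omega)
        have : ¬ (j ∈ c ∧ τ (om W B j) = false) := fun e => hc ⟨j, hj, e⟩
        grind
    have := key W le_rfl
    grind

theorem sat3_of_sat2 {φ : E3 ℕ} (h : Sat2 (pos φ) (neg φ)) : Sat3 φ := by
  obtain ⟨τ, hP, hN⟩ := h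
  simp only [leg_iff] at hP hN
  have row : ∀ i (hi : i < φ.length), _ := fun i hi => row_sound (τ := τ) (W := 6 * φ.length)
    (B := base (6 * φ.length) i) (c := [col φ[i].1, col φ[i].2.1, col φ[i].2.2])
    (fun C hC => hP C (List.mem_append_right _ (List.mem_flatMap.2 ⟨i, List.mem_range.2 hi, hC⟩)))
    fun C hC => hN C (List.mem_flatMap.2 ⟨(φ[i], i), List.mem_zipIdx_iff_getElem?.2 (by simp), hC⟩)
  have up : ∀ j < 6 * φ.length, ∀ i ≤ φ.length,
      τ (om (6 * φ.length) (base (6 * φ.length) i) j) = false →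
      τ (om (6 * φ.length) 3 j) = false := fun j hj i => by
    induction i with
    | zero => simp [base]
    | succ i ih => exact fun hi e => ih (by omega) ((row i hi).1 j hj (by rwa [← base_succ]))
  have lit : ∀ l : Bool × ℕ, col l < 6 * φ.length → τ (om (6 * φ.length) 3 (col l)) = false →
      (!τ (om (6 * φ.length) 3 (2 * l.2 + 1))) = l.1 := by
    rintro ⟨_ | _, v⟩ h1 h2
    · simp only [col, Bool.toNat_false, add_zero] at h1 h2
      have := hP _ (List.mem_append_left _ (List.mem_map_of_mem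
        (List.mem_range.2 (show 3 * φ.length - 1 - v < 3 * φ.length by omega))))
      simp only [arc, or_self_left] at this
      rw [show 3 + 2 * (3 * φ.length - 1 - v) + 1 = om (6 * φ.length) 3 (2 * v) by
        unfold om; omega, show 3 + 2 * (3 * φ.length - 1 - v) = om (6 * φ.length) 3 (2 * v + 1) by
        unfold om; omega] at this
      simpa [h2] using this
    · simpa [col] using h2
  refine ⟨fun v => !τ (om (6 * φ.length) 3 (2 * v + 1)), fun C hC => ?_⟩
  obtain ⟨i, hi, rfl⟩ := List.getElem_of_mem hC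
  obtain ⟨j, hj, h1, h2⟩ := (row i hi).2
  have h3 := up j hj i hi.le h2
  simp only [List.mem_cons, List.not_mem_nil, or_false] at h1
  rcases h1 with rfl | rfl | rfl
  · exact .inl (lit _ hj h3)
  · exact .inr (.inl (lit _ hj h3))
  · exact .inr (.inr (lit _ hj h3))

/-- values in a cell: `L` the literal of the column, `h` and `k` the demands left and right -/
def cell (L h k : Bool) (r : ℕ) : Bool :=
  [h, L, !L && !h, L && !k, k, L || !k, !(L && k), L && k].getD r false

theorem row_complete {τ L : ℕ → Bool} {W B J : ℕ} {c : List ℕ} (hJ : J < W) (hc : J ∈ c)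
    (hL : L J = true) (h1 : ∀ j < W, τ (om W B j) = !L j)
    (h2 : ∀ j < W, τ (om W (B + (9 * W + 5)) j) = !L j) (h3 : τ (B + W) = false)
    (h4 : ∀ j r, r < 8 → 8 * j + r < 8 * W + 3 →
      τ (gp W B j r) = cell (L j) (decide (j ≤ J)) (decide (j < J)) r) :
    (∀ C ∈ rowP W B, τ C.1 = true ∨ τ C.2.1 = true ∨ τ C.2.2 = true) ∧
      ∀ C ∈ rowN W B c, τ C.1 = false ∨ τ C.2.1 = false ∨ τ C.2.2 = false := by
  simp only [rowP, rowN, List.forall_mem_append, List.forall_mem_cons, List.forall_mem_flatMap,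
    List.mem_range, arc, List.not_mem_nil, false_imp_iff, implies_true, and_true, or_self_left]
  have a0 := h4 0 0 (by omega) (by omega)
  have a1 := h4 W 0 (by omega) (by omega)
  have a2 := h4 W 1 (by omega) (by omega)
  have a3 := h4 W 2 (by omega) (by omega)
  have key : ∀ j < W, τ (gp W B j 0) = decide (j ≤ J) ∧ τ (gp W B j 1) = L j ∧
      τ (gp W B j 2) = (!L j && !decide (j ≤ J)) ∧ τ (gp W B j 3) = (L j && !decide (j < J)) ∧
      τ (gp W B j 4) = decide (j < J) ∧ τ (gp W B j 5) = (L j || !decide (j < J)) ∧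
      τ (gp W B j 6) = (!(L j && decide (j < J))) ∧ τ (gp W B j 7) = (L j && decide (j < J)) ∧
      τ (gp W B (j + 1) 0) = decide (j + 1 ≤ J) := fun j hj =>
    ⟨h4 j 0 (by omega) (by omega), h4 j 1 (by omega) (by omega), h4 j 2 (by omega) (by omega),
      h4 j 3 (by omega) (by omega), h4 j 4 (by omega) (by omega), h4 j 5 (by omega) (by omega),
      h4 j 6 (by omega) (by omega), h4 j 7 (by omega) (by omega), h4 (j + 1) 0 (by omega) (by omega)⟩
  simp only [cell, List.getD_cons_zero, List.getD_cons_succ] at a0 a1 a2 a3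
  refine ⟨⟨by grind, fun j hj => ?_⟩, by grind, fun j hj => ?_⟩ <;> have := key j hj <;>
    have := h1 j hj <;> have := h2 j hj <;> grind

theorem sat2_of_sat3 {φ : E3 ℕ} (hb : ∀ C ∈ φ, C.1.2 < 3 * φ.length ∧ C.2.1.2 < 3 * φ.length ∧
    C.2.2.2 < 3 * φ.length) (h : Sat3 φ) : Sat2 (pos φ) (neg φ) := by
  obtain ⟨σ, hσ⟩ := h
  obtain ⟨W, hW⟩ : ∃ W, W = 6 * φ.length := ⟨_, rfl⟩
  let L : ℕ → Bool := fun j => σ (j / 2) == decide (j % 2 = 1)
  have lit : ∀ l : Bool × ℕ, l.2 < 3 * φ.length → σ l.2 = l.1 → col l < W ∧ L (col l) = true := by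
    rintro ⟨_ | _, v⟩ h1 h2 <;> simp only [col, L, Bool.toNat_false, Bool.toNat_true] at * <;>
      refine ⟨by omega, ?_⟩
    · simp [h2]
    · rw [show (2 * v + 1) / 2 = v by omega, h2]; simp
  have ex : ∀ i, ∃ J, ∀ hi : i < φ.length, J < W ∧ J ∈ [col φ[i].1, col φ[i].2.1, col φ[i].2.2] ∧
      L J = true := fun i => by
    by_cases hi : i < φ.length
    · obtain ⟨b1, b2, b3⟩ := hb _ (List.getElem_mem hi)
      rcases hσ _ (List.getElem_mem hi) with e | e | e
      · exact ⟨_, fun _ => ⟨(lit _ b1 e).1, by simp, (lit _ b1 e).2⟩⟩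
      · exact ⟨_, fun _ => ⟨(lit _ b2 e).1, by simp, (lit _ b2 e).2⟩⟩
      · exact ⟨_, fun _ => ⟨(lit _ b3 e).1, by simp, (lit _ b3 e).2⟩⟩
    · exact ⟨0, fun h => absurd h hi⟩
  choose J hJ using ex
  let f : ℕ → ℕ → Bool := fun i o => if o < W then !L (W - 1 - o) else if o < W + 2 then false else
    cell (L ((o - W - 2) / 8)) (decide ((o - W - 2) / 8 ≤ J i)) (decide ((o - W - 2) / 8 < J i))
      ((o - W - 2) % 8)
  let τ : ℕ → Bool := fun p => f ((p - 3) / (9 * W + 5)) ((p - 3) % (9 * W + 5))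
  have hτ : ∀ i o, o < 9 * W + 5 → τ (base W i + o) = f i o := fun i o ho => by
    have e : base W i + o - 3 = o + (9 * W + 5) * i := by unfold base; rw [mul_comm i]; omega
    simp only [τ, e, Nat.add_mul_div_left _ _ (show 0 < 9 * W + 5 by omega),
      Nat.add_mul_mod_self_left, Nat.div_eq_of_lt ho, Nat.mod_eq_of_lt ho, zero_add]
  have h1 : ∀ i, ∀ j < W, τ (om W (base W i) j) = !L j := fun i j hj => by
    rw [om, hτ _ _ (by omega)]
    simp only [f]
    rw [if_pos (by omega), show W - 1 - (W - 1 - j) = j by omega]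
  have row : ∀ i (hi : i < φ.length), _ := fun i hi =>
    row_complete (τ := τ) (B := base W i) (hJ i hi).1 (hJ i hi).2.1 (hJ i hi).2.2 (h1 i)
      (by rw [← base_succ]; exact h1 _) (by rw [hτ _ _ (by omega)]; simp [f]) fun j r a b => by
        rw [show gp W (base W i) j r = base W i + (W + 2 + 8 * j + r) by unfold gp; omega,
          hτ _ _ (by omega)]
        simp only [f]
        rw [if_neg (by omega), if_neg (by omega), show (W + 2 + 8 * j + r - W - 2) / 8 = j by omega,
          show (W + 2 + 8 * j + r - W - 2) % 8 = r by omega]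
  refine ⟨τ, fun C hC => (leg_iff _ _ _).2 ?_, fun C hC => (leg_iff _ _ _).2 ?_⟩
  · rcases List.mem_append.1 hC with hC | hC
    · obtain ⟨u, hu, rfl⟩ := List.mem_map.1 hC
      have hu := List.mem_range.1 hu
      have a1 := h1 0 (W - 1 - 2 * u) (by omega)
      have a2 := h1 0 (W - 1 - (2 * u + 1)) (by omega)
      rw [show om W (base W 0) (W - 1 - 2 * u) = 3 + 2 * u by unfold om base; omega] at a1
      rw [show om W (base W 0) (W - 1 - (2 * u + 1)) = 3 + 2 * u + 1 by unfold om base; omega] at a2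
      simp only [arc, a1, a2, L, show (W - 1 - (2 * u + 1)) / 2 = (W - 1 - 2 * u) / 2 by omega,
        show (W - 1 - (2 * u + 1)) % 2 = 0 by omega, show (W - 1 - 2 * u) % 2 = 1 by omega]
      cases σ ((W - 1 - 2 * u) / 2) <;> simp
    · obtain ⟨i, hi, hC⟩ := List.mem_flatMap.1 hC
      exact (row i (List.mem_range.1 hi)).1 C (hW ▸ hC)
  · obtain ⟨⟨D, i⟩, hp, hC⟩ := List.mem_flatMap.1 hC
    obtain ⟨hi, rfl⟩ := List.getElem?_eq_some_iff.1
      (show φ[i]? = some D from List.mem_zipIdx_iff_getElem?.1 hp)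
    exact (row i hi).2 C (hW ▸ hC)

end Pool.Agent.Lib.MP_ae8a84_co.NP
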