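import Mathlib

/-!
Two-page monotone formulas and the bigraphs built from them.

Variables are natural numbers (times on a line). A clause `(a, b, c)` with `a ≤ b < c` has the legs
`a, b, c`. Each of the two pages (positive and negative clauses) is free of crossings.
-/

namespace Pool.Agent.Lib.MP_ae8a84_co.NP

/-- clauses `(a, b, c)`, and segments `(level, start, finish)` -/
abbrev Cl := ℕ × ℕ × ℕ

/-- vertices: segments (flag `false`) and clause points (flag `true`) -/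
abbrev Dsc := Bool × ℕ × ℕ × ℕ

/-- the long intervals of a page -/
def segs (n : ℕ) (P : List Cl) : List Cl :=
  (List.range n).map (fun i => (0, i, i + 1)) ++ P.flatMap fun C =>
    [(2 * (C.2.2 - C.1), C.2.1, C.2.2),
      (2 * (C.2.2 - C.1), C.1, if C.1 < C.2.1 then C.2.1 else C.2.2),
      (2 * (C.2.2 - C.1) + 1, C.1, C.2.2)]

/-- one part of the bigraph -/
def verts (n : ℕ) (P N : List Cl) : List Dsc :=
  (segs n N).map (fun s => (false, s)) ++ P.map fun C => (true, C)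

/-- a clause point is adjacent to a segment -/
def cov (C s : Cl) : Bool :=
  decide (2 * (C.2.2 - C.1) < s.1) && decide (s.2.1 ≤ C.1) && decide (C.2.2 ≤ s.2.2)

/-- adjacency -/
def adj (d e : Dsc) : Bool :=
  cond d.1 (!e.1 && cov d.2 e.2)
    (cond e.1 (cov e.2 d.2) (decide (d.2.2.1 ≤ e.2.2.2) && decide (e.2.2.1 ≤ d.2.2.2)))

theorem adj_comm (d e : Dsc) : adj d e = adj e d := by
  obtain ⟨a, d⟩ := d
  obtain ⟨b, e⟩ := e
  cases a <;> cases b <;> simp [adj, Bool.and_comm]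

/-- an interval representation -/
def IsRep (X Y : List Dsc) (l r l' r' : Dsc → ℝ) : Prop :=
  (∀ d, l d ≤ r d) ∧ (∀ d, l' d ≤ r' d) ∧
    ∀ d ∈ X, ∀ e ∈ Y, (adj d e = true ↔ l' e ≤ r d ∧ l d ≤ r' e)

theorem IsRep.swap {X Y : List Dsc} {l r l' r' : Dsc → ℝ} (h : IsRep X Y l r l' r') :
    IsRep Y X l' r' l r :=
  ⟨h.2.1, h.1, fun d hd e he => by rw [adj_comm, h.2.2 e he d hd, and_comm]⟩

theorem IsRep.neg {X Y : List Dsc} {l r l' r' : Dsc → ℝ} (h : IsRep X Y l r l' r') :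
    IsRep X Y (fun d => -r d) (fun d => -l d) (fun d => -r' d) (fun d => -l' d) :=
  ⟨fun d => neg_le_neg (h.1 d), fun d => neg_le_neg (h.2.1 d), fun d hd e he => by
    rw [h.2.2 d hd e he, neg_le_neg_iff, neg_le_neg_iff, and_comm]⟩

/-- `t` is a leg of the clause -/
def Leg (C : Cl) (t : ℕ) : Prop := t = C.1 ∨ t = C.2.1 ∨ t = C.2.2

/-- a well formed page without crossings -/
structure Good (n : ℕ) (P : List Cl) : Prop where
  wf : ∀ C ∈ P, 3 ≤ C.1 ∧ C.1 ≤ C.2.1 ∧ C.2.1 < C.2.2 ∧ C.2.2 + 3 ≤ n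
  nc : ∀ C ∈ P, ∀ D ∈ P, C ≠ D → C.2.2 - C.1 ≤ D.2.2 - D.1 → ∀ t, Leg D t → t ≤ C.1 ∨ C.2.2 ≤ t

/-- satisfiability -/
def Sat2 (P N : List Cl) : Prop :=
  ∃ τ : ℕ → Bool, (∀ C ∈ P, ∃ t, Leg C t ∧ τ t = true) ∧ ∀ C ∈ N, ∃ t, Leg C t ∧ τ t = false

variable {n : ℕ} {P N : List Cl} {l r l' r' : Dsc → ℝ}

theorem seg_mem {s : Cl} (h : s ∈ segs n N) : (false, s) ∈ verts n P N :=
  List.mem_append_left _ (List.mem_map_of_mem h)

theorem bb_mem {i : ℕ} (h : i < n) : (0, i, i + 1) ∈ segs n N :=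
  List.mem_append_left _ (List.mem_map_of_mem (f := fun i => (0, i, i + 1)) (List.mem_range.2 h))

/-- backbone vertices -/
abbrev bb (i : ℕ) : Dsc := (false, 0, i, i + 1)

theorem IsRep.indep {X Y : List Dsc} (h : IsRep X Y l r l' r') {x1 x2 y1 y2 : Dsc}
    (a1 : x1 ∈ X) (a2 : x2 ∈ X) (b1 : y1 ∈ Y) (b2 : y2 ∈ Y) (e1 : adj x1 y1 = true)
    (e2 : adj x2 y2 = true) (e3 : adj x2 y1 = false) (e4 : r x1 < l' y2) : r' y1 < l x2 := by
  have h1 := (h.2.2 _ a1 _ b1).1 e1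
  have h2 := (h.2.2 _ a2 _ b2).1 e2
  by_contra c
  have := (h.2.2 _ a2 _ b1).2 ⟨by linarith [h1.1, h2.1], not_lt.1 c⟩
  simp [e3] at this

theorem forward (h : IsRep (verts n P N) (verts n N P) l r l' r') (h0 : r (bb 0) < l' (bb 2))
    (i : ℕ) (hi : i + 2 < n) : r (bb i) < l' (bb (i + 2)) ∧ r' (bb i) < l (bb (i + 2)) := by
  have m : ∀ {P N : List Cl} (i), i < n → bb i ∈ verts n P N := fun i hi => seg_mem (bb_mem hi)
  have key : ∀ i, i + 2 < n → r (bb i) < l' (bb (i + 2)) := by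
    intro i
    induction i with
    | zero => exact fun _ => h0
    | succ i ih =>
      intro hi
      have h1 := h.indep (m i (by omega)) (m (i + 3) (by omega)) (m i (by omega))
        (m (i + 2) (by omega)) (by simp [adj]) (by simp [adj]) (by simp [adj]) (ih (by omega))
      exact h.swap.indep (m i (by omega)) (m (i + 3) (by omega)) (m (i + 1) (by omega))
        (m (i + 3) (by omega)) (by simp [adj]; omega) (by simp [adj]) (by simp [adj]) h1
  exact ⟨key i hi, h.indep (m i (by omega)) (m (i + 2) (by omega)) (m i (by omega))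
    (m (i + 2) (by omega)) (by simp [adj]) (by simp [adj]) (by simp [adj]) (key i hi)⟩

/-- two disjoint segments of the page touch the time `t` -/
def Split (n : ℕ) (P : List Cl) (l r : Dsc → ℝ) (t : ℕ) : Prop :=
  ∃ s ∈ segs n P, ∃ u ∈ segs n P, s.2.1 ≤ t ∧ t ≤ s.2.2 ∧ u.2.1 ≤ t ∧ t ≤ u.2.2 ∧
    r (false, s) < l (false, u)

theorem not_split (h : IsRep (verts n P N) (verts n N P) l r l' r') {t : ℕ}
    (h1 : Split n P l' r' t) (h2 : Split n N l r t) : False := by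
  obtain ⟨s, hs, u, hu, a1, a2, a3, a4, a5⟩ := h1
  obtain ⟨v, hv, w, hw, b1, b2, b3, b4, b5⟩ := h2
  have c1 := (h.2.2 _ (seg_mem hv) _ (seg_mem hu)).1 (by simp [adj]; omega)
  have c2 := (h.2.2 _ (seg_mem hw) _ (seg_mem hs)).1 (by simp [adj]; omega)
  linarith [c1.1, c2.2]

theorem half (hP : Good n P) (h : IsRep (verts n P N) (verts n N P) l r l' r')
    (f : ∀ i, i + 2 < n → r (bb i) < l' (bb (i + 2)) ∧ r' (bb i) < l (bb (i + 2))) :
    ∀ C ∈ P, ∃ t, Leg C t ∧ Split n P l' r' t := by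
  intro C hC
  obtain ⟨w1, w2, w3, w4⟩ := hP.wf C hC
  obtain ⟨a, b, c⟩ := C
  obtain ⟨a, rfl⟩ : ∃ k, a = k + 3 := ⟨a - 3, by simp only at w1; omega⟩
  simp only at w2 w3 w4
  have m : ∀ {P N : List Cl} (i), i < n → bb i ∈ verts n P N := fun i hi => seg_mem (bb_mem hi)
  have hx : (true, a + 3, b, c) ∈ verts n P N := List.mem_append_right _ (List.mem_map_of_mem hC)
  have k : ∀ s ∈ [(2 * (c - (a + 3)), b, c), (2 * (c - (a + 3)), a + 3, if a + 3 < b then b else c),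
      (2 * (c - (a + 3)) + 1, a + 3, c)], s ∈ segs n P := fun s hs =>
    List.mem_append_right _ (List.mem_flatMap.2 ⟨_, hC, hs⟩)
  have k1 := k _ (.head _)
  have k2 := k _ (.tail _ (.head _))
  have k3 := seg_mem (P := N) (k _ (.tail _ (.tail _ (.head _))))
  have e1 := h.swap.indep (m a (by omega)) k3 (m (a + 1) (by omega)) (m (a + 2) (by omega))
    (by simp [adj]; omega) (by simp [adj]; omega) (by simp [adj]) (f a (by omega)).2
  have e2 := h.indep (m (a + 1) (by omega)) hx (m (a + 2) (by omega)) k3 (by simp [adj])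
    (by simp [adj, cov]) (by simp [adj, cov]) e1
  have e3 := h.indep (m c (by omega)) (m (c + 1) (by omega)) k3 (m (c + 2) (by omega))
    (by simp [adj]; omega) (by simp [adj]) (by simp [adj]) (f c (by omega)).1
  have e4 := h.swap.indep k3 (m c (by omega)) hx (m (c + 1) (by omega)) (by simp [adj, cov])
    (by simp [adj]; omega) (by simp [adj, cov]) e3
  have e5 := h.1 (true, a + 3, b, c)
  have n1 := (h.2.2 _ hx _ (seg_mem k1)).not.1 (by simp [adj, cov])
  have n2 := (h.2.2 _ hx _ (seg_mem k2)).not.1 (by simp [adj, cov])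
  rw [not_and_or, not_le, not_le] at n1 n2
  rcases n1 with n1 | n1
  · rcases n2 with n2 | n2
    · exact ⟨_, .inl rfl, _, bb_mem (show a + 2 < n by omega), _, k2, by simp, by simp, by simp,
        by dsimp only; split_ifs <;> omega, by linarith⟩
    · by_cases hb : a + 3 < b
      · exact ⟨_, .inr (.inl rfl), _, k2, _, k1, by simpa using w2, by simp [hb], by simp,
          by simpa using w3.le, by linarith⟩
      · obtain rfl : b = a + 3 := by omega
        rw [if_neg hb] at n2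
        linarith [h.2.1 (false, 2 * (c - (a + 3)), a + 3, c)]
  · exact ⟨_, .inr (.inr rfl), _, k1, _, bb_mem (show c < n by omega), by simpa using w3.le, by simp,
      by simp, by simp, by linarith⟩

theorem sat_of_rep (hn : 3 ≤ n) (hP : Good n P) (hN : Good n N)
    (h : IsRep (verts n P N) (verts n N P) l r l' r') : Sat2 P N := by
  classical
  have key : ∀ {l r l' r' : Dsc → ℝ}, IsRep (verts n P N) (verts n N P) l r l' r' →
      r (bb 0) < l' (bb 2) → Sat2 P N := fun {l r l' r'} h h0 => by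
    have f := forward h h0
    refine ⟨fun t => decide (Split n P l' r' t), fun C hC => ?_, fun C hC => ?_⟩
    · obtain ⟨t, h1, h2⟩ := half hP h f C hC
      exact ⟨t, h1, decide_eq_true h2⟩
    · obtain ⟨t, h1, h2⟩ := half hN h.swap (fun i hi => (f i hi).symm) C hC
      exact ⟨t, h1, decide_eq_false fun c => not_split h c h2⟩
  have n1 := (h.2.2 _ (seg_mem (bb_mem (show 0 < n by omega))) _
    (seg_mem (bb_mem (show 2 < n by omega)))).not.1 (by simp [adj])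
  rw [not_and_or, not_le, not_le] at n1
  rcases n1 with n1 | n1
  · exact key h n1
  · exact key h.neg (neg_lt_neg n1)

section build

variable (n) (σ : ℕ → Bool)

/-- centre of the stretch of the time `t` -/
def tm (t : ℕ) : ℤ := (12 * n + 12) * t

/-- position of a clause point -/
def pt (C : Cl) : ℤ :=
  if σ C.1 then tm n C.1 + (4 * n + 4) - 4 * (C.2.2 - C.1 : ℕ) - 1
  else if σ C.2.2 then tm n C.2.2 - (4 * n + 4) + 4 * (C.2.2 - C.1 : ℕ) + 1 else tm n C.2.1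

/-- left end of a segment -/
def sl (s : Cl) : ℤ :=
  if σ s.2.1 then tm n s.2.1 + (4 * n + 4) - 2 * s.1 else tm n s.2.1 - (4 * n + 4)

/-- right end of a segment -/
def sr (s : Cl) : ℤ :=
  if σ s.2.2 then tm n s.2.2 - (4 * n + 4) + 2 * s.1 else tm n s.2.2 + (4 * n + 4)

variable {n σ}

theorem tm_lt {s t : ℕ} (h : s < t) : tm n s + (12 * n + 12) ≤ tm n t := by
  have : (s : ℤ) + 1 ≤ t := by exact_mod_cast h
  unfold tm
  nlinarith

theorem seg_spec (hP : Good n P) {s : Cl} (hs : s ∈ segs n P) : s.2.1 < s.2.2 ∧ s.1 ≤ 2 * n + 1 ∧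
    ∀ C ∈ P, (2 * (C.2.2 - C.1) < s.1 → (s.2.1 ≤ C.1 ∨ C.2.2 ≤ s.2.1) ∧ (s.2.2 ≤ C.1 ∨ C.2.2 ≤ s.2.2)) ∧
      (s.1 ≤ 2 * (C.2.2 - C.1) → ∀ t, Leg C t → t ≤ s.2.1 ∨ s.2.2 ≤ t) := by
  rcases List.mem_append.1 hs with hs | hs
  · obtain ⟨i, -, rfl⟩ := List.mem_map.1 hs
    exact ⟨by simp, by simp, fun C _ => ⟨by simp, fun _ t _ => by dsimp only; omega⟩⟩
  obtain ⟨D, hD, hs⟩ := List.mem_flatMap.1 hs
  have w := hP.wf D hD
  have key : ∀ C ∈ P, C = D ∨ ((C.2.2 - C.1 ≤ D.2.2 - D.1 → (D.1 ≤ C.1 ∨ C.2.2 ≤ D.1) ∧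
      (D.2.1 ≤ C.1 ∨ C.2.2 ≤ D.2.1) ∧ (D.2.2 ≤ C.1 ∨ C.2.2 ≤ D.2.2)) ∧
      (D.2.2 - D.1 ≤ C.2.2 - C.1 → ∀ t, Leg C t → t ≤ D.1 ∨ D.2.2 ≤ t)) := fun C hC =>
    or_iff_not_imp_left.2 fun c => ⟨fun e => ⟨hP.nc C hC D hD c e _ (.inl rfl),
      hP.nc C hC D hD c e _ (.inr (.inl rfl)), hP.nc C hC D hD c e _ (.inr (.inr rfl))⟩,
      hP.nc D hD C hC (Ne.symm c)⟩
  simp only [List.mem_cons, List.not_mem_nil, or_false] at hs
  rcases hs with rfl | rfl | rfl <;> dsimp only <;>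
    refine ⟨by (try split_ifs) <;> omega, by omega, fun C hC => ?_⟩ <;>
    rcases key C hC with rfl | ⟨k1, k2⟩ <;>
    refine ⟨fun e => by (try split_ifs) <;> omega, fun e t ht => ?_⟩
  all_goals first
    | (have := k2 (by omega) t ht; (try split_ifs) <;> omega)
    | (unfold Leg at ht; (try split_ifs) <;> omega)

theorem pt_spec (hP : Good n P) {C : Cl} (hC : C ∈ P) (h : ∃ t, Leg C t ∧ σ t = true) :
    ∃ t, Leg C t ∧ σ t = true ∧ tm n t - (4 * n + 4) + 4 * (C.2.2 - C.1 : ℕ) + 1 ≤ pt n σ C ∧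
      pt n σ C ≤ tm n t + (4 * n + 4) - 4 * (C.2.2 - C.1 : ℕ) - 1 ∧
      (t = C.1 → pt n σ C = tm n t + (4 * n + 4) - 4 * (C.2.2 - C.1 : ℕ) - 1) ∧
      (t = C.2.2 → pt n σ C = tm n t - (4 * n + 4) + 4 * (C.2.2 - C.1 : ℕ) + 1) := by
  have w := hP.wf C hC
  unfold pt
  split_ifs with h1 h2
  · exact ⟨_, .inl rfl, h1, by omega, by omega, by omega, by omega⟩
  · exact ⟨_, .inr (.inr rfl), h2, by omega, by omega, by omega, by omega⟩
  · obtain ⟨t, rfl | rfl | rfl, ht⟩ := h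
    · exact absurd ht h1
    · exact ⟨_, .inr (.inl rfl), ht, by omega, by omega, fun e => absurd (e ▸ ht) h1, by omega⟩
    · exact absurd ht h2

theorem cov_iff (hP : Good n P) {C s : Cl} (hC : C ∈ P) (hs : s ∈ segs n P)
    (h : ∃ t, Leg C t ∧ σ t = true) :
    cov C s = true ↔ sl n σ s ≤ pt n σ C ∧ pt n σ C ≤ sr n σ s := by
  have w := hP.wf C hC
  obtain ⟨s1, s2, s3⟩ := seg_spec hP hs
  obtain ⟨s3, s4⟩ := s3 C hC
  obtain ⟨t, t1, t2, t3, t4, t5, t6⟩ := pt_spec hP hC h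
  have s5 := fun e => s4 e t t1
  have a1 := @tm_lt n s.2.1 t
  have a2 := @tm_lt n t s.2.1
  have a3 := @tm_lt n s.2.2 t
  have a4 := @tm_lt n t s.2.2
  have b1 : s.2.1 = t → sl n σ s = tm n t + (4 * n + 4) - 2 * s.1 := fun e => by
    rw [sl, e, if_pos t2]
  have b2 : s.2.2 = t → sr n σ s = tm n t - (4 * n + 4) + 2 * s.1 := fun e => by
    rw [sr, e, if_pos t2]
  have b3 : tm n s.2.1 - (4 * n + 4) ≤ sl n σ s ∧ sl n σ s ≤ tm n s.2.1 + (4 * n + 4) := by
    unfold sl; split_ifs <;> omega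
  have b4 : tm n s.2.2 - (4 * n + 4) ≤ sr n σ s ∧ sr n σ s ≤ tm n s.2.2 + (4 * n + 4) := by
    unfold sr; split_ifs <;> omega
  unfold Leg at t1
  simp only [cov, Bool.and_eq_true, decide_eq_true_eq]
  omega

theorem seg_le {s u : Cl} (hs : s.1 ≤ 2 * n + 1) (hu : u.1 ≤ 2 * n + 1) :
    sl n σ s ≤ sr n (fun t => !σ t) u ↔ s.2.1 ≤ u.2.2 := by
  have a1 := @tm_lt n s.2.1 u.2.2
  have a2 := @tm_lt n u.2.2 s.2.1
  unfold sl sr
  rcases eq_or_ne s.2.1 u.2.2 with e | e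
  · rw [e]
    by_cases c : σ u.2.2 = true
    · rw [if_pos c, if_neg (by simp [c])]
      omega
    · rw [if_neg c, if_pos (by simp [c])]
      omega
  · split_ifs <;> omega

theorem rep_of_sat (hP : Good n P) (hN : Good n N) (h : Sat2 P N) :
    ∃ l r l' r', IsRep (verts n P N) (verts n N P) l r l' r' := by
  classical
  obtain ⟨σ, h1, h2⟩ := h
  have h3 : ∀ C ∈ N, ∃ t, Leg C t ∧ (!σ t) = true := fun C hC => by simpa using h2 C hC
  have le : ∀ (σ : ℕ → Bool) (s : Cl), s.2.1 < s.2.2 → s.1 ≤ 2 * n + 1 → sl n σ s ≤ sr n σ s :=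
    fun σ s a b => by
      have := @tm_lt n _ _ a
      unfold sl sr
      split_ifs <;> omega
  let L : (ℕ → Bool) → (ℕ → Bool) → Dsc → ℤ := fun σ ρ d => cond d.1 (pt n σ d.2) (sl n ρ d.2)
  let R : (ℕ → Bool) → (ℕ → Bool) → Dsc → ℤ := fun σ ρ d =>
    cond d.1 (pt n σ d.2) (max (sl n ρ d.2) (sr n ρ d.2))
  have LR : ∀ σ ρ d, (L σ ρ d : ℝ) ≤ R σ ρ d := fun σ ρ d => Int.cast_le.2 (by
    obtain ⟨b, d⟩ := d
    cases b <;> simp [L, R])
  refine ⟨fun d => L σ (fun t => !σ t) d, fun d => R σ (fun t => !σ t) d,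
    fun d => L (fun t => !σ t) σ d, fun d => R (fun t => !σ t) σ d, LR _ _, LR _ _,
    fun d hd e he => ?_⟩
  simp only [Int.cast_le]
  simp only [verts, List.mem_append, List.mem_map] at hd he
  rcases hd with ⟨d, hd, rfl⟩ | ⟨d, hd, rfl⟩ <;> rcases he with ⟨e, he, rfl⟩ | ⟨e, he, rfl⟩ <;>
    simp only [adj, L, R, cond_true, cond_false, Bool.not_false, Bool.not_true, Bool.true_and,
      Bool.false_and]
  · obtain ⟨a1, a2, -⟩ := seg_spec hN hd
    obtain ⟨b1, b2, -⟩ := seg_spec hP he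
    have := @seg_le n (fun t => !σ t) d e a2 b2
    simp only [Bool.not_not] at this
    rw [max_eq_right (le _ _ a1 a2), max_eq_right (le _ _ b1 b2), seg_le b2 a2, this]
    simp [and_comm]
  · obtain ⟨a1, a2, -⟩ := seg_spec hN hd
    rw [max_eq_right (le _ _ a1 a2), cov_iff hN he hd (h3 e he), and_comm]
  · obtain ⟨a1, a2, -⟩ := seg_spec hP he
    rw [max_eq_right (le _ _ a1 a2), cov_iff hP hd he (h1 d hd)]
  · obtain ⟨t, -, t2, t3, t4, -⟩ := pt_spec hP hd (h1 d hd)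
    obtain ⟨u, -, u2, u3, u4, -⟩ := pt_spec hN he (h3 e he)
    have a1 := @tm_lt n u t
    have a2 := @tm_lt n t u
    have : t ≠ u := fun c => by simp [← c, t2] at u2
    simp only [Bool.false_eq_true, false_iff]
    omega

end build

end Pool.Agent.Lib.MP_ae8a84_co.NP
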