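import Pool.Agent.Lib.MP_ae8a84_co.NP.Gadget
import Pool.Agent.Shared.CookLevin

/-!
From three-literal formulas to two-page monotone formulas: one row of crossover cells per clause,
one column per literal; consecutive rows are joined through a reversed row of connectors.
-/

namespace Pool.Agent.Lib.MP_ae8a84_co.NP

open Pool.Agent.Shared.CookLevin Pool.Agent.Shared.PolyTime

/-- start of the block `i` -/
def base (W i : ℕ) : ℕ := 3 + i * (9 * W + 5)

/-- connector of the column `j` -/
def om (W B j : ℕ) : ℕ := B + (W - 1 - j)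

/-- variable number `r` of the cell `j` -/
def gp (W B j r : ℕ) : ℕ := B + W + 2 + 8 * j + r

/-- a clause with two legs -/
def arc (a c : ℕ) : Cl := (a, a, c)

/-- positive clauses of a row -/
def rowP (W B : ℕ) : List Cl :=
  [arc (B + W) (gp W B 0 0), arc (B + W + 1) (gp W B 0 0), arc (gp W B W 1) (gp W B W 2)] ++
    (List.range W).flatMap fun j =>
      [(gp W B j 2, gp W B j 3, gp W B j 4), arc (gp W B j 6) (gp W B (j + 1) 0),
        arc (gp W B j 5) (gp W B (j + 1) 0), arc (gp W B j 6) (gp W B j 7),
        arc (gp W B j 1) (om W (B + (9 * W + 5)) j), arc (gp W B j 5) (om W (B + (9 * W + 5)) j)]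

/-- negative clauses of a row with the tapped columns `c` -/
def rowN (W B : ℕ) (c : List ℕ) : List Cl :=
  [arc (B + W) (B + W + 1), arc (gp W B W 0) (gp W B W 1), arc (gp W B W 0) (gp W B W 2)] ++
    (List.range W).flatMap fun j =>
      [arc (gp W B j 0) (gp W B j 2), arc (gp W B j 1) (gp W B j 2),
        (gp W B j 4, gp W B j 5, gp W B j 6), arc (om W B j) (gp W B j 3),
        arc (om W B j) (gp W B j 7),
        arc (gp W B j 0) (if j ∈ c then gp W B j 2 else gp W B j 3)]

/-- column of a literal -/
def col (l : Bool × ℕ) : ℕ := 2 * l.2 + l.1.toNat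

/-- the positive page -/
def pos (φ : E3 ℕ) : List Cl :=
  (List.range (3 * φ.length)).map (fun u => arc (3 + 2 * u) (3 + 2 * u + 1)) ++
    (List.range φ.length).flatMap fun i => rowP (6 * φ.length) (base (6 * φ.length) i)

/-- the negative page -/
def neg (φ : E3 ℕ) : List Cl := φ.zipIdx.flatMap fun p =>
  rowN (6 * φ.length) (base (6 * φ.length) p.2) [col p.1.1, col p.1.2.1, col p.1.2.2]

/-- number of times -/
def len (φ : E3 ℕ) : ℕ := base (6 * φ.length) φ.length + 6 * φ.length + 3

theorem base_succ (W i : ℕ) : base W (i + 1) = base W i + (9 * W + 5) := by unfold base; ring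

theorem base_lt (W : ℕ) {i j : ℕ} (h : i < j) : base W i + (9 * W + 5) ≤ base W j := by
  rw [← base_succ]
  exact Nat.add_le_add_left (Nat.mul_le_mul_right _ h) _

theorem base_cmp (W i j : ℕ) : 3 ≤ base W i ∧ 3 ≤ base W j ∧ (base W i = base W j ∨
    base W i + (9 * W + 5) ≤ base W j ∨ base W j + (9 * W + 5) ≤ base W i) :=
  ⟨Nat.le_add_right _ _, Nat.le_add_right _ _,
    (lt_trichotomy i j).elim (fun h => .inr (.inl (base_lt W h))) fun h =>
      h.elim (fun h => .inl (by rw [h])) fun h => .inr (.inr (base_lt W h))⟩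

theorem good_pos (φ : E3 ℕ) : Good (len φ) (pos φ) := by
  constructor
  · intro C hC
    simp only [pos, rowP, List.mem_append, List.mem_map, List.mem_flatMap, List.mem_range,
      List.mem_cons, List.not_mem_nil, or_false] at hC
    have := base_cmp (6 * φ.length) φ.length 0
    rcases hC with ⟨u, hu, rfl⟩ | ⟨i, hi, hC⟩
    · simp only [arc, len]; omega
    have := base_lt (6 * φ.length) hi
    have := base_cmp (6 * φ.length) i 0
    rcases hC with (rfl | rfl | rfl) | ⟨j, hj, rfl | rfl | rfl | rfl | rfl | rfl⟩ <;>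
      simp only [arc, len, gp, om] <;> omega
  · intro C hC D hD
    simp only [pos, rowP, List.mem_append, List.mem_map, List.mem_flatMap, List.mem_range,
      List.mem_cons, List.not_mem_nil, or_false] at hC hD
    rcases hC with ⟨u, hu, rfl⟩ | ⟨i, hi, (rfl | rfl | rfl) |
        ⟨j, hj, rfl | rfl | rfl | rfl | rfl | rfl⟩⟩ <;>
      rcases hD with ⟨v, hv, rfl⟩ | ⟨k, hk, (rfl | rfl | rfl) |
        ⟨l, hl, rfl | rfl | rfl | rfl | rfl | rfl⟩⟩ <;>
      simp only [arc, gp, om, Leg, ne_eq, Prod.mk.injEq] <;> intro h1 h2 t ht <;>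
      first
        | (have := base_cmp (6 * φ.length) i k; omega)
        | (have := base_cmp (6 * φ.length) i i; omega)
        | (have := base_cmp (6 * φ.length) k k; omega)
        | omega

theorem good_neg (φ : E3 ℕ) : Good (len φ) (neg φ) := by
  constructor
  · intro C hC
    simp only [neg, rowN, List.mem_append, List.mem_flatMap, List.mem_range,
      List.mem_cons, List.not_mem_nil, or_false] at hC
    obtain ⟨p, hp, hC⟩ := hC
    have := base_lt (6 * φ.length) (List.snd_lt_of_mem_zipIdx hp)
    have := base_cmp (6 * φ.length) p.2 0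
    rcases hC with (rfl | rfl | rfl) | ⟨j, hj, rfl | rfl | rfl | rfl | rfl | rfl⟩ <;>
      simp only [arc, len, gp, om, add_zero] at * <;> (try split_ifs) <;> omega
  · intro C hC D hD
    simp only [neg, rowN, List.mem_append, List.mem_flatMap, List.mem_range,
      List.mem_cons, List.not_mem_nil, or_false] at hC hD
    obtain ⟨p, -, hC⟩ := hC
    obtain ⟨q, -, hD⟩ := hD
    have := base_cmp (6 * φ.length) p.2 q.2
    rcases hC with (rfl | rfl | rfl) | ⟨j, hj, rfl | rfl | rfl | rfl | rfl | rfl⟩ <;>
      rcases hD with (rfl | rfl | rfl) | ⟨l, hl, rfl | rfl | rfl | rfl | rfl | rfl⟩ <;>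
      simp only [arc, gp, om, Leg, ne_eq, Prod.mk.injEq] <;> (try split_ifs) <;>
      intro h1 h2 t ht <;> omega

end Pool.Agent.Lib.MP_ae8a84_co.NP
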